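import Mathlib

/-! Combinatorial core for the comparison of the spaces of continuous functions on powers of the
ball: weak Delta systems, duplication of coordinates with several budgets, arms and windows. -/

open Finset Function

namespace Pool.Agent.P.MP_b4ec01_an.Pw

universe u u' v v' w

variable {α : Type u} {β : Type u'} {ι : Type v} [DecidableEq ι]

/-- Weak form of a Delta system with root positions `σ` and root values `e0`. -/
def Fr {D : Type} (Q : α → (D → β) → Prop) (σ : Finset D) (e0 : D → β) : Prop :=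
  ∀ (Z : Finset β) (A : Finset α), ∃ t, t ∉ A ∧ ∃ e, Q t e ∧ (∀ d ∈ σ, e d = e0 d) ∧
    ∀ d, d ∉ σ → e d ∉ Z

theorem exists_fr {D : Type} [Fintype D] (Q : α → (D → β) → Prop)
    (h : ¬ Set.Countable {t | ∃ e, Q t e}) : ∃ σ e0, Fr Q σ e0 := by
  classical
  have hne0 : {t | ∃ e, Q t e}.Nonempty := by
    by_contra hn
    rw [Set.not_nonempty_iff_eq_empty] at hn
    exact h (hn ▸ Set.countable_empty)
  obtain ⟨t0, e00, -⟩ := hne0
  have hf : ∀ t : α, ∃ e : D → β, (∃ e, Q t e) → Q t e := by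
    intro t
    by_cases ht : ∃ e, Q t e
    · obtain ⟨e, he⟩ := ht
      exact ⟨e, fun _ => he⟩
    · exact ⟨e00, fun h => absurd h ht⟩
  choose f hf using hf
  let good : Finset D → Prop := fun σ =>
    ∃ e0 : D → β, ¬ Set.Countable {t | (∃ e, Q t e) ∧ ∀ d ∈ σ, f t d = e0 d}
  have hne : (univ.filter good).Nonempty := by
    refine ⟨∅, mem_filter.2 ⟨mem_univ _, e00, ?_⟩⟩
    simpa using h
  obtain ⟨σ, hσ, hmax⟩ := exists_max_image (univ.filter good) Finset.card hne
  obtain ⟨e0, he0⟩ := (mem_filter.1 hσ).2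
  refine ⟨σ, e0, fun Z A => ?_⟩
  set J := {t | (∃ e, Q t e) ∧ ∀ d ∈ σ, f t d = e0 d} with hJ
  have hbad : ∀ d, d ∉ σ → ∀ z : β, Set.Countable {t | t ∈ J ∧ f t d = z} := by
    intro d hd z
    by_contra hc
    have hg : good (insert d σ) := by
      refine ⟨Function.update e0 d z, fun hc' => hc (hc'.mono ?_)⟩
      rintro t ⟨⟨h1, h2⟩, h3⟩
      refine ⟨h1, fun d' hd' => ?_⟩
      rcases mem_insert.1 hd' with rfl | hd'
      · simp [h3]
      · have : d' ≠ d := fun h => hd (h ▸ hd')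
        simp [Function.update_of_ne this, h2 d' hd']
    have := hmax _ (mem_filter.2 ⟨mem_univ _, hg⟩)
    rw [card_insert_of_notMem hd] at this
    omega
  have hcount : Set.Countable ((A : Set α) ∪
      ⋃ d ∈ (σᶜ : Finset D), ⋃ z ∈ Z, {t | t ∈ J ∧ f t d = z}) := by
    refine (A.countable_toSet).union ?_
    refine Set.Countable.biUnion (σᶜ : Finset D).countable_toSet fun d hd => ?_
    refine Set.Countable.biUnion Z.countable_toSet fun z _ => ?_
    exact hbad d (by simpa using hd) z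
  have : ¬ J ⊆ ((A : Set α) ∪ ⋃ d ∈ (σᶜ : Finset D), ⋃ z ∈ Z, {t | t ∈ J ∧ f t d = z}) :=
    fun hs => he0 (hcount.mono hs)
  rw [Set.not_subset] at this
  obtain ⟨t, htJ, ht⟩ := this
  refine ⟨t, fun hA => ht (Or.inl hA), f t, hf t htJ.1, htJ.2, fun d hd hZ => ht (Or.inr ?_)⟩
  simp only [Set.mem_iUnion]
  exact ⟨d, by simpa using hd, f t d, hZ, htJ, rfl⟩

variable (bl : β → ι)

/-- The mass of `x` on the part of `F` that belongs to the ball `j`. -/
def mass (j : ι) (F : Finset β) (x : β → ℝ) : ℝ := ∑ z ∈ F, if bl z = j then |x z| else 0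

/-- Every ball carries mass at most one. -/
def InBB (x : β → ℝ) : Prop := ∀ (j : ι) (F : Finset β), mass bl j F x ≤ 1

theorem mass_mono (j : ι) {F F' : Finset β} (h : F ⊆ F') (x : β → ℝ) :
    mass bl j F x ≤ mass bl j F' x :=
  sum_le_sum_of_subset_of_nonneg h fun _ _ _ => by split_ifs <;> positivity

theorem dup {D : Type} [Fintype D] [DecidableEq D] (σ : Finset D) (e : D → β) (R : Finset β)
    (x : β → ℝ) (he : ∀ d ∈ σ, e d ∈ R) (Q : α → (D → β) → Prop)
    (hQ : Fr Q σ e) (hinj : ∀ t e', Q t e' → Injective e' ∧ ∀ d, bl (e' d) = bl (e d)) (L : ℕ) :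
    ∃ (x' : β → ℝ) (S : Finset β) (A : Finset α), R ⊆ S ∧ (∀ z, z ∉ S → x' z = 0) ∧
      (∀ z ∈ R, x' z = x z) ∧
      (∀ j, mass bl j S x' ≤ mass bl j R x +
        L * ∑ d ∈ σᶜ, if bl (e d) = j then |x (e d)| else 0) ∧ A.card = L ∧
      ∀ t ∈ A, ∃ e', Q t e' ∧ (∀ d, e' d ∈ S) ∧ ∀ d, x' (e' d) = x (e d) := by
  classical
  induction L with
  | zero =>
    refine ⟨fun z => if z ∈ R then x z else 0, R, ∅, subset_rfl, fun z hz => by simp [hz],
      fun z hz => by simp [hz], fun j => ?_, rfl, by simp⟩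
    simp only [Nat.cast_zero, zero_mul, add_zero, mass]
    exact le_of_eq (sum_congr rfl fun z hz => by simp [hz])
  | succ L ih =>
    obtain ⟨x', S, A, hRS, h0, hR, hsum, hcard, hA⟩ := ih
    obtain ⟨t, htA, e', hQ', h1, h2⟩ := hQ S A
    obtain ⟨hi, hb⟩ := hinj t e' hQ'
    let y : β → ℝ := fun z => if z ∈ S then x' z else Function.extend e' (fun d => x (e d)) 0 z
    have hyS : ∀ z ∈ S, y z = x' z := fun z hz => by simp [y, hz]
    have hye : ∀ d, d ∉ σ → y (e' d) = x (e d) := fun d hd => by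
      simp [y, h2 d hd, hi.extend_apply]
    have hdisj : Disjoint S ((σᶜ).image e') := by
      rw [Finset.disjoint_right]
      intro z hz
      obtain ⟨d, hd, rfl⟩ := mem_image.1 hz
      exact h2 d (by simpa using hd)
    refine ⟨y, S ∪ (σᶜ).image e', insert t A, hRS.trans subset_union_left, ?_, ?_, ?_, ?_, ?_⟩
    · intro z hz
      rw [mem_union, not_or] at hz
      simp only [y, hz.1, if_false]
      rw [Function.extend_apply']
      · rfl
      · rintro ⟨d, rfl⟩
        by_cases hd : d ∈ σ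
        · exact hz.1 (hRS (h1 d hd ▸ he d hd))
        · exact hz.2 (mem_image_of_mem _ (by simpa using hd))
    · intro z hz
      rw [hyS z (hRS hz), hR z hz]
    · intro j
      have h3 := hsum j
      unfold mass at h3 ⊢
      rw [sum_union hdisj, sum_image (fun a _ b _ h => hi h)]
      have e1 : (∑ z ∈ S, if bl z = j then |y z| else 0) =
          ∑ z ∈ S, if bl z = j then |x' z| else 0 :=
        sum_congr rfl fun z hz => by rw [hyS z hz]
      have e2 : (∑ d ∈ σᶜ, if bl (e' d) = j then |y (e' d)| else 0) =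
          ∑ d ∈ σᶜ, if bl (e d) = j then |x (e d)| else 0 :=
        sum_congr rfl fun d hd => by rw [hye d (by simpa using hd), hb d]
      rw [e1, e2]
      push_cast
      linarith
    · rw [card_insert_of_notMem htA, hcard]
    · intro t' ht'
      rcases mem_insert.1 ht' with rfl | ht'
      · refine ⟨e', hQ', fun d => ?_, fun d => ?_⟩
        · by_cases hd : d ∈ σ
          · exact mem_union_left _ (hRS (h1 d hd ▸ he d hd))
          · exact mem_union_right _ (mem_image_of_mem _ (by simpa using hd))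
        · by_cases hd : d ∈ σ
          · rw [h1 d hd, hyS _ (hRS (he d hd)), hR _ (he d hd)]
          · exact hye d hd
      · obtain ⟨e'', a1, a2, a3⟩ := hA t' ht'
        exact ⟨e'', a1, fun d => mem_union_left _ (a2 d), fun d => by rw [hyS _ (a2 d), a3 d]⟩

section App

variable {Θ : Type v'} (D : Θ → Type) (H : ∀ θ, (D θ → ℝ) → ℝ) (bθ : ∀ θ, D θ → ι)

/-- `f` is within `1/8` of the model function `H θ` of the coordinates `e`. -/
def App (f : (β → ℝ) → ℝ) (θ : Θ) (e : D θ → β) : Prop :=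
  Injective e ∧ (∀ d, bl (e d) = bθ θ d) ∧ ∀ x, InBB bl x → |f x - H θ (x ∘ e)| ≤ 1 / 8

variable [∀ θ, Fintype (D θ)]

/-- A good step of an arm eats a fixed share of the slack of one ball. -/
theorem step (G : α → (β → ℝ) → ℝ) (P : α → Prop) (M : ℝ) (N : ℕ) (hN : 8 * M < N) (hN0 : 0 < N)
    (hb : ∀ (A : Finset α) x, (∀ a ∈ A, P a) → InBB bl x → ∑ a ∈ A, |G a x| ≤ M)
    (a : α) (θ : Θ) (e : D θ → β) (ρ : Finset (D θ)) (R R' : Finset β) (hRR : R ⊆ R')
    (happ : App bl D H bθ (G a) θ e) (h1 : ∀ d, e d ∈ R') (h2 : ∀ d ∈ ρ, e d ∈ R)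
    (h3 : ∀ d, d ∉ ρ → e d ∉ R)
    (hfr : Fr (fun a' e' => P a' ∧ App bl D H bθ (G a') θ e') ρ e)
    (x : β → ℝ) (hx : InBB bl x) (hg : 3 / 8 ≤ |G a x|) :
    ∃ j, 1 - mass bl j R' x < (1 - 1 / N) * (1 - mass bl j R x) := by
  classical
  by_contra hcon
  push Not at hcon
  have hN' : (0 : ℝ) < N := by exact_mod_cast hN0
  obtain ⟨x', S, A, -, h0, -, hsum, hcard, hA⟩ := dup bl ρ e R x h2 _ hfr
    (fun t e' h => ⟨h.2.1, fun d => (h.2.2.1 d).trans (happ.2.1 d).symm⟩) N
  have hx' : InBB bl x' := by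
    intro j F
    have a1 : mass bl j F x' ≤ mass bl j S x' := by
      have : mass bl j F x' = mass bl j (F ∩ S) x' := by
        refine (sum_subset inter_subset_left fun z hz hz' => ?_).symm
        rw [h0 z (fun h => hz' (mem_inter.2 ⟨hz, h⟩)), abs_zero, ite_self]
      rw [this]
      exact mass_mono bl j inter_subset_right _
    have a2 : (∑ d ∈ ρᶜ, if bl (e d) = j then |x (e d)| else 0) ≤
        mass bl j R' x - mass bl j R x := by
      unfold mass
      rw [← sum_sdiff hRR, add_sub_cancel_right, ← sum_image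
        (f := fun z => if bl z = j then |x z| else 0) (fun a _ b _ h => happ.1 h)]
      refine sum_le_sum_of_subset_of_nonneg (fun z hz => ?_) fun _ _ _ => by
        split_ifs <;> positivity
      obtain ⟨d, hd, rfl⟩ := mem_image.1 hz
      exact mem_sdiff.2 ⟨h1 d, h3 d (by simpa using hd)⟩
    have a3 := hcon j
    have a4 : (N : ℝ) * (mass bl j R' x - mass bl j R x) ≤ 1 - mass bl j R x := by
      have : (N : ℝ) * ((1 - 1 / N) * (1 - mass bl j R x)) =
          (N - 1) * (1 - mass bl j R x) := by field_simp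
      nlinarith [mul_le_mul_of_nonneg_left a3 hN'.le]
    have a5 := hsum j
    nlinarith [mul_le_mul_of_nonneg_left a2 hN'.le]
  have hlow : ∀ t ∈ A, (1 / 8 : ℝ) ≤ |G t x'| := by
    intro t ht
    obtain ⟨e', ⟨-, hq⟩, -, h5⟩ := hA t ht
    have b1 := happ.2.2 x hx
    have b2 := hq.2.2 x' hx'
    have b3 : x' ∘ e' = x ∘ e := funext h5
    rw [b3] at b2
    have b4 := abs_sub_abs_le_abs_sub (G a x) (G t x')
    have b5 : |G a x - G t x'| ≤ |G a x - H θ (x ∘ e)| + |G t x' - H θ (x ∘ e)| := by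
      rw [abs_sub_comm (G t x')]; exact abs_sub_le _ _ _
    linarith
  have c1 := card_nsmul_le_sum A _ _ hlow
  have c2 := hb A x' (fun t ht => by obtain ⟨e', ⟨h, -⟩, -⟩ := hA t ht; exact h) hx'
  rw [hcard, nsmul_eq_mul] at c1
  linarith

/-- Data of one step of an arm. -/
def StepOK (G : List α → (β → ℝ) → ℝ) (l l' : List α) (R R' Z : Finset β) : Prop :=
  ∃ a, a ∉ l ∧ l' = a :: l ∧ ∃ (θ : Θ) (e : D θ → β) (ρ : Finset (D θ)),
    App bl D H bθ (G (a :: l)) θ e ∧ (∀ d, e d ∈ R') ∧ (∀ d ∈ ρ, e d ∈ R) ∧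
    (∀ d, d ∉ ρ → e d ∉ R ∧ e d ∉ Z) ∧
    Fr (fun a' e' => a' ∉ l ∧ App bl D H bθ (G (a' :: l)) θ e') ρ e

variable [Countable Θ] [Uncountable α]

theorem arm [DecidableEq β] (G : List α → (β → ℝ) → ℝ)
    (happ : ∀ l, ∃ θ e, App bl D H bθ (G l) θ e) (q : ℕ) (l₀ : List α) :
    ∃ R₀ : Finset β, ∀ Z : Finset β, ∃ (l : ℕ → List α) (R : ℕ → Finset β), l 0 = l₀ ∧
      R 0 = R₀ ∧ (∀ k, R k ⊆ R (k + 1)) ∧ (∀ k, ∀ z ∈ R k, z ∈ Z → z ∈ R₀) ∧
      ∀ k < q, StepOK bl D H bθ G (l k) (l (k + 1)) (R k) (R (k + 1)) Z := by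
  classical
  induction q generalizing l₀ with
  | zero =>
    exact ⟨∅, fun Z => ⟨fun _ => l₀, fun _ => ∅, rfl, rfl, fun _ => subset_rfl,
      fun _ _ h _ => h, fun k hk => absurd hk (Nat.not_lt_zero k)⟩⟩
  | succ q ih =>
    choose R1 hR1 using ih
    let Q : ∀ w : Θ × ℕ, α → (D w.1 ⊕ Fin w.2 → β) → Prop := fun w a e =>
      a ∉ l₀ ∧ App bl D H bθ (G (a :: l₀)) w.1 (e ∘ Sum.inl) ∧
        ∀ z ∈ R1 (a :: l₀), ∃ i, e (Sum.inr i) = z
    have hex : ∃ w, ¬ Set.Countable {a | ∃ e, Q w a e} := by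
      by_contra hc
      push Not at hc
      have : (Set.univ : Set α) ⊆ {a | a ∈ l₀} ∪ ⋃ w, {a | ∃ e, Q w a e} := by
        intro a _
        by_cases ha : a ∈ l₀
        · exact Or.inl ha
        · obtain ⟨θ, e, he⟩ := happ (a :: l₀)
          refine Or.inr (Set.mem_iUnion.2 ⟨(θ, (R1 (a :: l₀)).card),
            Sum.elim e fun i => ((R1 (a :: l₀)).equivFin.symm i : β), ha, he, fun z hz => ?_⟩)
          exact ⟨(R1 (a :: l₀)).equivFin ⟨z, hz⟩, by simp⟩
      exact Set.not_countable_univ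
        (((List.finite_toSet l₀).countable.union (Set.countable_iUnion hc)).mono this)
    obtain ⟨w, hw⟩ := hex
    obtain ⟨σ, e0, hfr⟩ := exists_fr _ hw
    refine ⟨σ.image e0, fun Z => ?_⟩
    obtain ⟨a, -, e, ⟨ha, hap, hcov⟩, h1, h2⟩ := hfr (Z ∪ σ.image e0) ∅
    set S : Finset β := σ.image e0 ∪ univ.image e with hS
    obtain ⟨l, R, hl0, hR0, hRm, hRZ, hst⟩ := hR1 (a :: l₀) (Z ∪ S)
    have hSZ : ∀ z ∈ S, z ∈ Z → z ∈ σ.image e0 := by
      intro z hz hzZ
      rcases mem_union.1 hz with h | h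
      · exact h
      · obtain ⟨d, -, rfl⟩ := mem_image.1 h
        by_cases hd : d ∈ σ
        · rw [h1 d hd]; exact mem_image_of_mem _ hd
        · exact absurd (mem_union_left _ hzZ) (h2 d hd)
    have hR1S : R1 (a :: l₀) ⊆ S := fun z hz => by
      obtain ⟨i, rfl⟩ := hcov z hz
      exact mem_union_right _ (mem_image_of_mem _ (mem_univ _))
    refine ⟨fun k => Nat.casesOn k l₀ l, fun k => Nat.casesOn k (σ.image e0) fun k => S ∪ R k,
      rfl, rfl, fun k => ?_, fun k => ?_, fun k hk => ?_⟩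
    · cases k with
      | zero => exact subset_union_left.trans subset_union_left
      | succ k => exact union_subset_union_right (hRm k)
    · cases k with
      | zero => exact fun z hz _ => hz
      | succ k =>
        intro z hz hzZ
        rcases mem_union.1 hz with h | h
        · exact hSZ z h hzZ
        · exact hSZ z (hR1S (hRZ k z h (mem_union_left _ hzZ))) hzZ
    · cases k with
      | zero =>
        refine ⟨a, ha, hl0, w.1, e ∘ Sum.inl, univ.filter fun d => Sum.inl d ∈ σ, hap,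
          fun d => mem_union_left _ (mem_union_right _ (mem_image_of_mem _ (mem_univ _))),
          fun d hd => ?_, fun d hd => ?_, fun Z' A => ?_⟩
        · have hd' := (mem_filter.1 hd).2
          show e (Sum.inl d) ∈ σ.image e0
          rw [h1 _ hd']; exact mem_image_of_mem _ hd'
        · have := h2 (Sum.inl d) (by simpa using hd)
          rw [mem_union, not_or] at this
          exact ⟨this.2, this.1⟩
        · obtain ⟨a', ha', e', ⟨b1, b2, -⟩, b3, b4⟩ := hfr Z' A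
          refine ⟨a', ha', e' ∘ Sum.inl, ⟨b1, b2⟩, fun d hd => ?_, fun d hd => ?_⟩
          · have hd' := (mem_filter.1 hd).2
            exact (b3 _ hd').trans (h1 _ hd').symm
          · exact b4 _ (by simpa using hd)
      | succ k =>
        obtain ⟨a', b1, b2, θ, e', ρ, b3, b4, b5, b6, b7⟩ := hst k (Nat.lt_of_succ_lt_succ hk)
        refine ⟨a', b1, b2, θ, e', ρ, b3, fun d => mem_union_right _ (b4 d),
          fun d hd => mem_union_right _ (b5 d hd), fun d hd => ?_, b7⟩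
        have := b6 d hd
        rw [mem_union, not_or] at this
        exact ⟨fun h => (mem_union.1 h).elim this.2.2 this.1, this.2.1⟩

omit [Countable Θ] [Uncountable α] [∀ θ, Fintype (D θ)] in
theorem numeric [Fintype ι] (s : ℕ → ι → ℝ) (r : ℝ) (q₀ : ℕ) (hr : 0 ≤ r) (hr1 : r ≤ 1)
    (hq : r ^ q₀ ≤ 1 / 2) (h0 : ∀ k j, 0 ≤ s k j) (hm : ∀ k j, s (k + 1) j ≤ s k j)
    (hs : ∀ k < Fintype.card ι * q₀ + 1, ∃ j, s (k + 1) j < r * s k j) :
    ∃ j, s (Fintype.card ι * q₀ + 1) j < 1 / 2 * s 0 j := by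
  classical
  set q := Fintype.card ι * q₀ + 1 with hqd
  have hne : Nonempty ι := ⟨(hs 0 (Nat.succ_pos _)).choose⟩
  have hs' : ∀ k, ∃ j, k < q → s (k + 1) j < r * s k j := fun k => by
    by_cases hk : k < q
    · obtain ⟨j, hj⟩ := hs k hk
      exact ⟨j, fun _ => hj⟩
    · exact ⟨hne.some, fun h => absurd h hk⟩
  choose J hJ using hs'
  obtain ⟨j, -, hj⟩ := exists_lt_card_fiber_of_mul_lt_card_of_maps_to (s := range q)
    (t := (univ : Finset ι)) (f := J) (n := q₀) (fun _ _ => mem_univ _)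
    (by rw [card_range, card_univ]; omega)
  let c : ℕ → ℕ := fun k => ((range k).filter fun i => J i = j).card
  have key : ∀ k ≤ q, s k j ≤ r ^ c k * s 0 j ∧ (1 ≤ c k → s k j < r ^ (c k - 1) * s 0 j) := by
    intro k
    induction k with
    | zero => intro _; simp [c]
    | succ k ih =>
      intro hk
      obtain ⟨i1, i2⟩ := ih (Nat.le_of_succ_le hk)
      by_cases hk' : J k = j
      · have hc : c (k + 1) = c k + 1 := by
          simp only [c, range_add_one, filter_insert, hk', if_true]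
          rw [card_insert_of_notMem (by simp)]
        have h1 := hJ k hk
        rw [hk'] at h1
        rw [hc, Nat.add_sub_cancel, pow_succ]
        refine ⟨by nlinarith [mul_le_mul_of_nonneg_left i1 hr], fun _ => ?_⟩
        nlinarith [mul_le_of_le_one_left (h0 k j) hr1]
      · have hc : c (k + 1) = c k := by
          simp only [c, range_add_one, filter_insert, hk', if_false]
        rw [hc]
        exact ⟨(hm k j).trans i1, fun h => (hm k j).trans_lt (i2 h)⟩
  have h1 := (key q le_rfl).2 (by show 1 ≤ ((range q).filter fun i => J i = j).card; omega)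
  have h2 : r ^ (c q - 1) ≤ r ^ q₀ := pow_le_pow_of_le_one hr hr1
    (by show q₀ ≤ ((range q).filter fun i => J i = j).card - 1; omega)
  exact ⟨j, h1.trans_le (mul_le_mul_of_nonneg_right (h2.trans hq) (h0 0 j))⟩

omit [Countable Θ] [Uncountable α] [∀ θ, Fintype (D θ)] [DecidableEq ι] in
theorem exists_disjoint {τ Y : Type*} [Fintype τ] [DecidableEq β] (P : τ → Y → Prop)
    (S : Y → Finset β) (Z₀ : Finset β)
    (h : ∀ t (Z : Finset β), Z₀ ⊆ Z → ∃ y, P t y ∧ ∀ z ∈ S y, z ∈ Z → z ∈ Z₀) :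
    ∃ y : τ → Y, (∀ t, P t (y t)) ∧ ∀ t t', t ≠ t' → ∀ z ∈ S (y t), z ∈ S (y t') → z ∈ Z₀ := by
  classical
  have key : ∀ s : Finset τ, ∃ y : τ → Y, (∀ t, P t (y t)) ∧
      ∀ t ∈ s, ∀ t' ∈ s, t ≠ t' → ∀ z ∈ S (y t), z ∈ S (y t') → z ∈ Z₀ := by
    intro s
    induction s using Finset.induction_on with
    | empty =>
      choose y hy _ using fun t => h t Z₀ subset_rfl
      exact ⟨y, hy, by simp⟩
    | insert t₀ s ht₀ ih =>
      obtain ⟨y, hy, hd⟩ := ih
      obtain ⟨y₀, h1, h2⟩ := h t₀ (Z₀ ∪ s.biUnion fun t => S (y t)) subset_union_left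
      have h3 : ∀ t ∈ s, ∀ z ∈ S y₀, z ∈ S (y t) → z ∈ Z₀ := fun t ht z hz hz' =>
        h2 z hz (mem_union_right _ (mem_biUnion.2 ⟨t, ht, hz'⟩))
      have hne : ∀ t ∈ s, t ≠ t₀ := fun t ht h => ht₀ (h ▸ ht)
      refine ⟨update y t₀ y₀, fun t => ?_, fun t ht t' ht' htt => ?_⟩
      · by_cases h : t = t₀
        · rw [h, update_self]; exact h1
        · rw [update_of_ne h]; exact hy t
      · rcases mem_insert.1 ht with h | h <;> rcases mem_insert.1 ht' with h' | h'
        · exact absurd (h.trans h'.symm) htt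
        · rw [h, update_self, update_of_ne (hne _ h')]; exact h3 _ h'
        · rw [h', update_self, update_of_ne (hne _ h)]; exact fun z hz hz' => h3 _ h z hz' hz
        · rw [update_of_ne (hne _ h), update_of_ne (hne _ h')]; exact hd _ h _ h' htt
  obtain ⟨y, hy, hd⟩ := key univ
  exact ⟨y, hy, fun t t' => hd t (mem_univ _) t' (mem_univ _)⟩

theorem window [Fintype ι] {τ : Type w} [Fintype τ] [DecidableEq τ]
    (hτ : Fintype.card ι < Fintype.card τ) (g : (τ → List α) → (β → ℝ) → ℝ)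
    (happ : ∀ c, ∃ θ e, App bl D H bθ (g c) θ e) (M : ℝ) (N q₀ : ℕ) (hN : 8 * M < N)
    (hN0 : 0 < N) (hq : (1 - 1 / N : ℝ) ^ q₀ ≤ 1 / 2)
    (hb : ∀ c t l (A : Finset α) x, (∀ a ∈ A, a ∉ l) → InBB bl x →
      ∑ a ∈ A, |g (update c t (a :: l)) x| ≤ M) (c : τ → List α) :
    ∃ c' : τ → List α, (∀ t, c t <:+ c' t) ∧
      (∀ t, (c' t).length = (c t).length + (Fintype.card ι * q₀ + 1)) ∧
      (∀ t, (c t).Nodup → (c' t).Nodup) ∧
      ∀ x, InBB bl x → ∃ t l, c t <:+ l ∧ l <:+ c' t ∧ |g (update c t l) x| < 3 / 8 := by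
  classical
  set q := Fintype.card ι * q₀ + 1 with hqd
  choose R₀ hR₀ using fun t => arm bl D H bθ (fun l => g (update c t l)) (fun l => happ _) q (c t)
  set Z₀ : Finset β := univ.biUnion R₀ with hZ₀
  have hRZ₀ : ∀ t, R₀ t ⊆ Z₀ := fun t => subset_biUnion_of_mem R₀ (mem_univ t)
  obtain ⟨y, hy, hd⟩ := exists_disjoint (τ := τ) (Y := (ℕ → List α) × (ℕ → Finset β))
    (fun t y => y.1 0 = c t ∧ y.2 0 = R₀ t ∧ (∀ k, y.2 k ⊆ y.2 (k + 1)) ∧ ∃ Z, Z₀ ⊆ Z ∧
      ∀ k < q, StepOK bl D H bθ (fun l => g (update c t l)) (y.1 k) (y.1 (k + 1)) (y.2 k)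
        (y.2 (k + 1)) Z) (fun y => y.2 q) Z₀ (fun t Z hZ => by
      obtain ⟨l, R, h1, h2, h3, h4, h5⟩ := hR₀ t Z
      exact ⟨(l, R), ⟨h1, h2, h3, Z, hZ, h5⟩, fun z hz hzZ => hRZ₀ t (h4 q z hz hzZ)⟩)
  have hsuf : ∀ t i k, i ≤ k → k ≤ q → (y t).1 i <:+ (y t).1 k := by
    intro t i k hik hk
    induction k, hik using Nat.le_induction with
    | base => exact List.suffix_refl _
    | succ k hik ih =>
      obtain ⟨Z, -, h5⟩ := (hy t).2.2.2
      obtain ⟨a, -, h, -⟩ := h5 k hk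
      rw [h]
      exact (ih (Nat.le_of_succ_le hk)).trans (List.suffix_cons _ _)
  have hlen : ∀ t k, k ≤ q → ((y t).1 k).length = (c t).length + k ∧
      ((c t).Nodup → ((y t).1 k).Nodup) := by
    intro t k hk
    induction k with
    | zero => rw [(hy t).1]; exact ⟨rfl, id⟩
    | succ k ih =>
      obtain ⟨Z, -, h5⟩ := (hy t).2.2.2
      obtain ⟨a, ha, h, -⟩ := h5 k hk
      obtain ⟨i1, i2⟩ := ih (Nat.le_of_succ_le hk)
      rw [h, List.length_cons, i1]
      exact ⟨rfl, fun hc => List.nodup_cons.2 ⟨ha, i2 hc⟩⟩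
  refine ⟨fun t => (y t).1 q, fun t => (hy t).1 ▸ hsuf t 0 q (Nat.zero_le _) le_rfl,
    fun t => (hlen t q le_rfl).1, fun t => (hlen t q le_rfl).2, fun x hx => ?_⟩
  by_contra hcon
  push Not at hcon
  have hN1 : (1 : ℝ) ≤ N := by exact_mod_cast hN0
  have hr0 : (0 : ℝ) ≤ 1 - 1 / N := by
    rw [sub_nonneg, div_le_one (by linarith)]; exact hN1
  have hr1 : (1 - 1 / N : ℝ) ≤ 1 := by
    have : (0 : ℝ) ≤ 1 / N := by positivity
    linarith
  have harm : ∀ t, ∃ j, 1 - mass bl j (Z₀ ∪ (y t).2 q) x < 1 / 2 * (1 - mass bl j Z₀ x) := by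
    intro t
    obtain ⟨h1, h2, h3, Z, hZ, h5⟩ := hy t
    have := numeric (fun k j => 1 - mass bl j (Z₀ ∪ (y t).2 k) x) _ q₀ hr0 hr1 hq
      (fun k j => sub_nonneg.2 (hx _ _))
      (fun k j => sub_le_sub_left (mass_mono bl j (union_subset_union_right (h3 k)) x) 1)
      (fun k hk => by
        obtain ⟨a, ha, h, θ, e, ρ, b3, b4, b5, b6, b7⟩ := h5 k hk
        refine step bl D H bθ (fun a => g (update c t (a :: (y t).1 k))) (fun a => a ∉ (y t).1 k)
          M N hN hN0 (fun A x' hA hx' => hb c t _ A x' hA hx') a θ e ρ _ _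
          (union_subset_union_right (h3 k)) b3 (fun d => mem_union_right _ (b4 d))
          (fun d hd => mem_union_right _ (b5 d hd))
          (fun d hd h => (mem_union.1 h).elim (fun h => (b6 d hd).2 (hZ h)) (b6 d hd).1) b7 x hx ?_
        rw [← h]
        exact hcon t _ (h1 ▸ hsuf t 0 (k + 1) (Nat.zero_le _) hk) (hsuf t (k + 1) q hk le_rfl))
    rwa [h2, union_eq_left.2 (hRZ₀ t)] at this
  choose J hJ using harm
  obtain ⟨t, t', htt, hj⟩ := Fintype.exists_ne_map_eq_of_card_lt J hτ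
  have h1 := hJ t
  have h2 := hJ t'
  rw [← hj] at h2
  have h3 : (Z₀ ∪ (y t).2 q) ∩ (Z₀ ∪ (y t').2 q) = Z₀ := by
    ext z
    simp only [mem_inter, mem_union]
    exact ⟨fun h => h.1.elim id fun a => h.2.elim id fun b => hd t t' htt z a b,
      fun h => ⟨Or.inl h, Or.inl h⟩⟩
  have h4 := sum_union_inter (s₁ := Z₀ ∪ (y t).2 q) (s₂ := Z₀ ∪ (y t').2 q)
    (f := fun z => if bl z = J t then |x z| else 0)
  rw [h3] at h4
  have h5 := hx (J t) ((Z₀ ∪ (y t).2 q) ∪ (Z₀ ∪ (y t').2 q))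
  unfold mass at h1 h2 h5
  linarith

theorem core [Fintype ι] {τ : Type w} [Fintype τ] [DecidableEq τ]
    (hτ : Fintype.card ι < Fintype.card τ) (g : (τ → List α) → (β → ℝ) → ℝ)
    (happ : ∀ c, ∃ θ e, App bl D H bθ (g c) θ e) (M : ℝ) (N q₀ W : ℕ) (hN : 8 * M < N)
    (hN0 : 0 < N) (hq : (1 - 1 / N : ℝ) ^ q₀ ≤ 1 / 2) (hW : 32 * M ^ 2 < W)
    (hM : ∀ c x, InBB bl x → |g c x| ≤ M)
    (hb : ∀ c t l (A : Finset α) x, (∀ a ∈ A, a ∉ l) → InBB bl x →
      ∑ a ∈ A, |g (update c t (a :: l)) x| ≤ M)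
    (hv : ∀ (I : Finset ℕ) (c c' : ℕ → τ → List α) x,
      (∀ i t, c i t <:+ c' i t ∧ c' i t <:+ c (i + 1) t) → InBB bl x →
      ∑ i ∈ I, |g (c' i) x - g (c (i + 1)) x| ≤ M)
    (hc : ∀ c : ℕ → τ → List α, (∀ i t, c i t <:+ c (i + 1) t) → (∀ t, (c W t).Nodup) →
      (∀ t, (c W t).length ≤ W * (Fintype.card ι * q₀ + 1)) →
      ∃ x, InBB bl x ∧ 3 / 4 * (W : ℝ) ≤ ∑ i ∈ range W, |g (c (i + 1)) x|) : False := by
  classical
  choose F hF1 hF2 hF3 hF4 using window bl D H bθ hτ g happ M N q₀ hN hN0 hq hb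
  let c : ℕ → τ → List α := fun i => F^[i] fun _ => []
  have hc1 : ∀ i, c (i + 1) = F (c i) := fun i => Function.iterate_succ_apply' _ _ _
  have hc2 : ∀ i t, (c i t).Nodup ∧ (c i t).length = i * (Fintype.card ι * q₀ + 1) := by
    intro i t
    induction i with
    | zero => simp [c]
    | succ i ih =>
      rw [hc1, hF2, ih.2]
      exact ⟨hF3 _ _ ih.1, by ring⟩
  obtain ⟨x, hx, hsum⟩ := hc c (fun i t => hc1 i ▸ hF1 _ t) (fun t => (hc2 W t).1)
    (fun t => (hc2 W t).2.le)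
  choose t l h1 h2 h3 using fun i => hF4 (c i) x hx
  set I := (range W).filter fun i => 1 / 2 ≤ |g (c (i + 1)) x| with hI
  have a1 := hv I c (fun i => update (c i) (t i) (l i)) x (fun i s => by
    rw [hc1]
    by_cases hs : s = t i
    · rw [hs, update_self]; exact ⟨h1 i, h2 i⟩
    · rw [update_of_ne hs]; exact ⟨List.suffix_refl _, hF1 _ s⟩) hx
  have a2 : (I.card : ℝ) * (1 / 8) ≤ M := by
    refine le_trans ?_ a1
    rw [← nsmul_eq_mul]
    refine card_nsmul_le_sum _ _ _ fun i hi => ?_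
    have b1 := (mem_filter.1 hi).2
    have b2 := abs_sub_abs_le_abs_sub (g (c (i + 1)) x) (g (update (c i) (t i) (l i)) x)
    rw [abs_sub_comm] at b2
    linarith [h3 i]
  have a3 : ∑ i ∈ range W, |g (c (i + 1)) x| ≤ I.card * M + W * (1 / 2) := by
    rw [← sum_filter_add_sum_filter_not (range W) fun i => 1 / 2 ≤ |g (c (i + 1)) x|]
    refine add_le_add ?_ ?_
    · rw [← nsmul_eq_mul]
      exact sum_le_card_nsmul _ _ _ fun i _ => hM _ x hx
    · have := sum_le_card_nsmul ((range W).filter fun i => ¬ 1 / 2 ≤ |g (c (i + 1)) x|)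
        (fun i => |g (c (i + 1)) x|) (1 / 2) fun i hi => (not_le.1 (mem_filter.1 hi).2).le
      rw [nsmul_eq_mul] at this
      have h : (((range W).filter fun i => ¬ 1 / 2 ≤ |g (c (i + 1)) x|).card : ℝ) ≤ W := by
        exact_mod_cast (card_filter_le _ _).trans (card_range W).le
      linarith
  have hM0 : 0 ≤ M := (abs_nonneg _).trans (hM (c 0) x hx)
  nlinarith [mul_le_mul_of_nonneg_right a2 hM0]

end App

end Pool.Agent.P.MP_b4ec01_an.Pw
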