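import Pool.Agent.P.MP_b4ec01_an.Main
import Pool.Agent.P.MP_b4ec01_an.Pw.Comb

/-! The space of continuous functions on a larger power of the ball does not embed in the one on a
smaller finite power. -/

open Finset Function

namespace Pool.Agent.P.MP_b4ec01_an.Pw

universe u v w

variable {κ : Type u}

section Target

variable {ι : Type v} [DecidableEq ι]

theorem inB_of_inBB {x : ι × κ → ℝ} (h : InBB Prod.fst x) (j : ι) : InB fun z => x (j, z) := by
  classical
  intro F
  have := h j (F.image fun z => (j, z))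
  rw [mass, sum_image (fun _ _ _ _ h => (Prod.ext_iff.1 h).2)] at this
  simpa using this

theorem inBB_of_mem (w : ι → B κ) : InBB Prod.fst fun z : ι × κ => (w z.1).1 z.2 := by
  classical
  intro j F
  have h := mem_B_iff.1 (w j).2 ((F.filter fun z => z.1 = j).image Prod.snd)
  rw [sum_image (fun a ha b hb hab => Prod.ext
    ((mem_filter.1 ha).2.trans (mem_filter.1 hb).2.symm) hab)] at h
  unfold mass
  rw [← sum_filter]
  refine le_trans (le_of_eq (sum_congr rfl fun z hz => ?_)) h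
  rw [← (mem_filter.1 hz).2]

/-- The point of the power given by a family of coordinates. -/
def toW {x : ι × κ → ℝ} (h : InBB Prod.fst x) : ι → B κ :=
  fun j => ⟨fun z => x (j, z), mem_B_iff.2 (inB_of_inBB h j)⟩

/-- Extension by zero. -/
noncomputable def ext' (f : C(ι → B κ, ℝ)) (x : ι × κ → ℝ) : ℝ :=
  open Classical in if h : InBB Prod.fst x then f (toW h) else 0

theorem ext'_apply (f : C(ι → B κ, ℝ)) {x : ι × κ → ℝ} (h : InBB Prod.fst x) :
    ext' f x = f (toW h) := by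
  simp [ext', h]

theorem exists_app' (f : C(ι → B κ, ℝ)) :
    ∃ (θ : Σ p : ℕ × ℕ, Fin p.1 → ι) (e : Fin θ.1.1 → ι × κ),
      App Prod.fst (fun θ : Σ p : ℕ × ℕ, Fin p.1 → ι => Fin θ.1.1) (fun θ => HH θ.1)
        (fun θ => θ.2) (ext' f) θ e := by
  let c : ι × κ → C(ι → B κ, ℝ) := fun z => ⟨fun w => (w z.1).1 z.2, continuous_coord' z.1 z.2⟩
  let A : Subalgebra ℝ C(ι → B κ, ℝ) := (MvPolynomial.aeval c).range
  have hA : A.SeparatesPoints := by
    intro x y hxy
    have : ∃ j i, (x j).1 i ≠ (y j).1 i := by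
      by_contra h
      push Not at h
      exact hxy (funext fun j => Subtype.ext (funext (h j)))
    obtain ⟨j, i, hi⟩ := this
    exact ⟨c (j, i), ⟨c (j, i), ⟨MvPolynomial.X (j, i), by simp⟩, rfl⟩, hi⟩
  obtain ⟨⟨_, p, rfl⟩, hp⟩ :=
    ContinuousMap.exists_mem_subalgebra_near_continuousMap_of_separatesPoints A hA f (1 / 16)
      (by norm_num)
  obtain ⟨d, e, he, q, rfl⟩ := MvPolynomial.exists_fin_rename p
  let c' : Fin d → C(Fin d → Set.Icc (-1 : ℝ) 1, ℝ) := fun j => ⟨fun y => (y j).1, by fun_prop⟩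
  obtain ⟨n, hn⟩ := (TopologicalSpace.denseRange_denseSeq
    C(Fin d → Set.Icc (-1 : ℝ) 1, ℝ)).exists_dist_lt (MvPolynomial.aeval c' q)
    (show (0 : ℝ) < 1 / 16 by norm_num)
  refine ⟨⟨(d, n), fun i => (e i).1⟩, e, he, fun _ => rfl, fun x hx => ?_⟩
  rw [ext'_apply f hx]
  have h1 := (ContinuousMap.norm_coe_le_norm _ (toW hx)).trans_lt hp
  have h2 := (ContinuousMap.dist_apply_le_dist
    (fun j => Set.projIcc (-1 : ℝ) 1 (by norm_num) (x (e j)))).trans_lt hn
  have h3 : MvPolynomial.aeval c (MvPolynomial.rename e q) (toW hx) =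
      MvPolynomial.aeval c' q fun j => Set.projIcc (-1 : ℝ) 1 (by norm_num) (x (e j)) := by
    rw [MvPolynomial.aeval_rename, aeval_apply, aeval_apply]
    congr 2
    funext j
    simp only [c, c', comp_apply, ContinuousMap.coe_mk, toW]
    rw [Set.projIcc_of_mem _ (abs_le.1 ((inB_of_inBB hx (e j).1).abs_le (e j).2))]
  simp only [ContinuousMap.sub_apply, Real.norm_eq_abs, AlgHom.toRingHom_eq_coe,
    RingHom.coe_coe] at h1
  rw [h3] at h1
  rw [Real.dist_eq] at h2
  simp only [HH, comp_apply]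
  rw [abs_lt] at h1 h2
  rw [abs_le]
  constructor <;> linarith [h1.1, h1.2, h2.1, h2.2]

end Target

section Source

variable [DecidableEq κ] (m : ℕ)

/-- One step of a chain. -/
noncomputable def st (l : List κ) (a : κ) : C(B κ, ℝ) :=
  ⟨fun y => max 0 (min 1 (3 ^ m * (∑ b ∈ l.toFinset, y.1 b + 2 * y.1 a - 1))),
    continuous_const.max (continuous_const.min (continuous_const.mul
      (((continuous_finsetSum _ fun b _ => continuous_coord b).add
        (continuous_const.mul (continuous_coord a))).sub continuous_const)))⟩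

theorem st_mem (l : List κ) (a : κ) (y : B κ) : 0 ≤ st m l a y ∧ st m l a y ≤ 1 :=
  ⟨le_max_left _ _, max_le zero_le_one (min_le_left _ _)⟩

theorem st_sib (l : List κ) (A : Finset κ) (hA : ∀ a ∈ A, a ∉ l) (y : B κ) :
    ∑ a ∈ A, st m l a y ≤ 1 := by
  have hz : ∀ a, ∑ b ∈ l.toFinset, y.1 b + 2 * y.1 a - 1 ≤ 0 → st m l a y = 0 := fun a h =>
    max_eq_left ((min_le_right _ _).trans (mul_nonpos_of_nonneg_of_nonpos (by positivity) h))
  by_cases hex : ∃ a ∈ A, 0 < ∑ b ∈ l.toFinset, y.1 b + 2 * y.1 a - 1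
  · obtain ⟨a, haA, ha⟩ := hex
    rw [sum_eq_single_of_mem a haA]
    · exact (st_mem m l a y).2
    · intro a' ha' hne
      refine hz a' ?_
      have h := mem_B_iff.1 y.2 (insert a (insert a' l.toFinset))
      rw [sum_insert (by simp [hA a haA, hne.symm]), sum_insert (by simp [hA a' ha'])] at h
      have h3 : ∑ b ∈ l.toFinset, y.1 b ≤ ∑ b ∈ l.toFinset, |y.1 b| :=
        sum_le_sum fun b _ => le_abs_self _
      have h4 := le_abs_self (y.1 a)
      have h5 := le_abs_self (y.1 a')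
      linarith
  · push Not at hex
    rw [sum_eq_zero fun a ha => hz a (hex a ha)]
    exact zero_le_one

/-- Cumulative indicator of a chain. -/
noncomputable def V : List κ → C(B κ, ℝ)
  | [] => 1
  | a :: l => st m l a * V l

theorem V_mem (l : List κ) (y : B κ) : 0 ≤ V m l y ∧ V m l y ≤ 1 := by
  induction l with
  | nil => simp [V]
  | cons a l ih =>
    exact ⟨mul_nonneg (st_mem m l a y).1 ih.1, mul_le_one₀ (st_mem m l a y).2 ih.1 ih.2⟩

theorem V_mono {l l' : List κ} (h : l <:+ l') (y : B κ) : V m l' y ≤ V m l y := by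
  obtain ⟨p, rfl⟩ := h
  induction p with
  | nil => simp
  | cons a p ih =>
    exact (mul_le_of_le_one_left (V_mem m _ y).1 (st_mem m _ a y).2).trans ih

/-- The point that follows a chain. -/
noncomputable def ptl : List κ → κ → ℝ
  | [] => 0
  | a :: l => update (ptl l) a (2 / 3 ^ (l.length + 1))

theorem ptl_zero (l : List κ) (z : κ) (hz : z ∉ l) : ptl l z = 0 := by
  induction l with
  | nil => rfl
  | cons a l ih =>
    rw [List.mem_cons, not_or] at hz
    simp [ptl, update_of_ne hz.1, ih hz.2]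

theorem ptl_nonneg (l : List κ) (z : κ) : 0 ≤ ptl l z := by
  induction l with
  | nil => exact le_rfl
  | cons a l ih =>
    by_cases h : z = a
    · simp only [ptl, h, update_self]; positivity
    · simp only [ptl, update_of_ne h]; exact ih

theorem ptl_sum (l : List κ) (hl : l.Nodup) :
    ∑ b ∈ l.toFinset, ptl l b = 1 - 1 / 3 ^ l.length := by
  induction l with
  | nil => simp
  | cons a l ih =>
    obtain ⟨ha, hl'⟩ := List.nodup_cons.1 hl
    rw [List.toFinset_cons, sum_insert (by simpa using ha)]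
    have : ∑ b ∈ l.toFinset, ptl (a :: l) b = ∑ b ∈ l.toFinset, ptl l b :=
      sum_congr rfl fun b hb => by
        have : b ≠ a := fun h => ha (h ▸ List.mem_toFinset.1 hb)
        simp only [ptl, update_of_ne this]
    rw [this, ih hl']
    simp only [ptl, update_self, List.length_cons]
    field_simp
    ring

theorem ptl_inB (l : List κ) (hl : l.Nodup) : InB (ptl l) := by
  intro F
  have h1 : ∑ i ∈ F, |ptl l i| = ∑ i ∈ F ∩ l.toFinset, ptl l i := by
    rw [sum_congr rfl fun i _ => abs_of_nonneg (ptl_nonneg l i)]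
    exact (sum_subset inter_subset_left fun z hz hz' =>
      ptl_zero l z fun h => hz' (mem_inter.2 ⟨hz, List.mem_toFinset.2 h⟩)).symm
  have h2 : ∑ i ∈ F ∩ l.toFinset, ptl l i ≤ ∑ i ∈ l.toFinset, ptl l i :=
    sum_le_sum_of_subset_of_nonneg inter_subset_right fun z _ _ => ptl_nonneg l z
  have h3 : (0 : ℝ) ≤ 1 / 3 ^ l.length := by positivity
  rw [ptl_sum l hl] at h2
  linarith

theorem V_eq_one (l : List κ) (hl : l.Nodup) (hm : l.length ≤ m) (y : B κ)
    (hy : ∀ z ∈ l, y.1 z = ptl l z) : V m l y = 1 := by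
  induction l with
  | nil => rfl
  | cons a l ih =>
    obtain ⟨ha, hl'⟩ := List.nodup_cons.1 hl
    have hy' : ∀ z ∈ l, y.1 z = ptl l z := fun z hz => by
      have : z ≠ a := fun h => ha (h ▸ hz)
      rw [hy z (List.mem_cons_of_mem _ hz)]
      simp only [ptl, update_of_ne this]
    have h1 : y.1 a = 2 / 3 ^ (l.length + 1) := by
      rw [hy a List.mem_cons_self]; simp only [ptl, update_self]
    show st m l a y * V m l y = 1
    rw [ih hl' (Nat.le_of_succ_le hm) hy', mul_one]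
    show max 0 (min 1 (3 ^ m * (∑ b ∈ l.toFinset, y.1 b + 2 * y.1 a - 1))) = 1
    rw [sum_congr rfl fun b hb => hy' b (List.mem_toFinset.1 hb), ptl_sum l hl', h1]
    have h2 : (1 - 1 / 3 ^ l.length + 2 * (2 / 3 ^ (l.length + 1)) - 1 : ℝ) =
        1 / 3 ^ (l.length + 1) := by field_simp; ring
    have h3 : (1 : ℝ) ≤ 3 ^ m * (1 / 3 ^ (l.length + 1)) := by
      rw [mul_one_div, one_le_div (by positivity)]
      exact pow_le_pow_right₀ (by norm_num) hm
    rw [h2, min_eq_left h3, max_eq_right zero_le_one]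

variable {τ : Type v} [Fintype τ] {ι' : Type w} (φ : τ → ι')

/-- The test functions. -/
noncomputable def U (c : τ → List κ) : C(ι' → B κ, ℝ) :=
  ∏ t, (V m (c t)).comp ⟨fun w => w (φ t), continuous_apply _⟩

theorem U_apply (c : τ → List κ) (w : ι' → B κ) : U m φ c w = ∏ t, V m (c t) (w (φ t)) := by
  simp [U]

theorem U_mem (c : τ → List κ) (w : ι' → B κ) : 0 ≤ U m φ c w ∧ U m φ c w ≤ 1 := by
  rw [U_apply]
  exact ⟨prod_nonneg fun t _ => (V_mem m _ _).1,
    prod_le_one (fun t _ => (V_mem m _ _).1) fun t _ => (V_mem m _ _).2⟩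

theorem U_mono {c c' : τ → List κ} (h : ∀ t, c t <:+ c' t) (w : ι' → B κ) :
    U m φ c' w ≤ U m φ c w := by
  rw [U_apply, U_apply]
  exact prod_le_prod (fun t _ => (V_mem m _ _).1) fun t _ => V_mono m (h t) _

theorem U_sib [DecidableEq τ] (c : τ → List κ) (t : τ) (l : List κ) (A : Finset κ)
    (hA : ∀ a ∈ A, a ∉ l) (w : ι' → B κ) : ∑ a ∈ A, |U m φ (update c t (a :: l)) w| ≤ 1 := by
  refine le_trans (sum_le_sum fun a _ => ?_) (st_sib m l A hA (w (φ t)))
  rw [abs_of_nonneg (U_mem m φ _ w).1, U_apply, ← mul_prod_erase univ _ (mem_univ t),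
    update_self]
  refine (mul_le_of_le_one_right (V_mem m _ _).1 (prod_le_one (fun t _ => (V_mem m _ _).1)
    fun t _ => (V_mem m _ _).2)).trans ?_
  exact mul_le_of_le_one_right (st_mem m l a _).1 (V_mem m l _).2

theorem U_var (I : Finset ℕ) (c c' : ℕ → τ → List κ)
    (h : ∀ i t, c i t <:+ c' i t ∧ c' i t <:+ c (i + 1) t) (w : ι' → B κ) :
    ∑ i ∈ I, |(U m φ (c' i) - U m φ (c (i + 1))) w| ≤ 1 := by
  obtain ⟨n, hn⟩ := I.exists_nat_subset_range
  have h1 : ∀ i, |(U m φ (c' i) - U m φ (c (i + 1))) w| ≤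
      U m φ (c i) w - U m φ (c (i + 1)) w := fun i => by
    have a1 := U_mono m φ (fun t => (h i t).1) w
    have a2 := U_mono m φ (fun t => (h i t).2) w
    rw [ContinuousMap.sub_apply, abs_of_nonneg (sub_nonneg.2 a2)]
    linarith
  refine (sum_le_sum_of_subset_of_nonneg hn fun _ _ _ => abs_nonneg _).trans
    ((sum_le_sum fun i _ => h1 i).trans ?_)
  rw [sum_range_sub' fun i => U m φ (c i) w]
  linarith [(U_mem m φ (c 0) w).2, (U_mem m φ (c n) w).1]

theorem U_one (hφ : Injective φ) (c : τ → List κ) (h1 : ∀ t, (c t).Nodup)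
    (h2 : ∀ t, (c t).length ≤ m) : ∃ w : ι' → B κ, U m φ c w = 1 := by
  refine ⟨Function.extend φ (fun t => ⟨ptl (c t), mem_B_iff.2 (ptl_inB _ (h1 t))⟩)
    (fun _ => ⟨0, mem_B_iff.2 fun F => by simp⟩), ?_⟩
  rw [U_apply]
  refine prod_eq_one fun t _ => V_eq_one m _ (h1 t) (h2 t) _ fun z _ => ?_
  rw [hφ.extend_apply]

end Source

theorem no_embedding' [Uncountable κ] {ι : Type v} [Fintype ι] {ι' : Type w}
    (φ : Option ι → ι') (hφ : Injective φ)
    (T : C(ι' → B κ, ℝ) →ₗ[ℝ] C(ι → B κ, ℝ)) (M : ℝ) (hM : 0 ≤ M)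
    (h1 : ∀ f, ‖f‖ ≤ ‖T f‖) (h2 : ∀ f, ‖T f‖ ≤ M * ‖f‖) : False := by
  classical
  obtain ⟨N, hN⟩ := exists_nat_gt (8 * M)
  have hN0 : 0 < N := by
    have : (0 : ℝ) < N := by linarith
    exact_mod_cast this
  have hN1 : (1 : ℝ) ≤ N := by exact_mod_cast hN0
  obtain ⟨q₀, hq⟩ := exists_pow_lt_of_lt_one (show (0 : ℝ) < 1 / 2 by norm_num)
    (show (1 - 1 / N : ℝ) < 1 by
      have : (0 : ℝ) < 1 / N := by positivity
      linarith)
  obtain ⟨W, hW⟩ := exists_nat_gt (32 * M ^ 2)
  set m := W * (Fintype.card ι * q₀ + 1) with hm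
  refine core (α := κ) (τ := Option ι) Prod.fst
    (fun θ : Σ p : ℕ × ℕ, Fin p.1 → ι => Fin θ.1.1) (fun θ => HH θ.1) (fun θ => θ.2)
    (by simp) (fun c => ext' (T (U m φ c))) (fun c => exists_app' _) M N q₀ W hN hN0 hq.le hW
    ?_ ?_ ?_ ?_
  · intro c x hx
    rw [ext'_apply _ hx]
    simpa using sign_trick T M hM h2 {c} (U m φ) 1 zero_le_one (fun w => by
      rw [sum_singleton, abs_of_nonneg (U_mem m φ c w).1]; exact (U_mem m φ c w).2) (toW hx)
  · intro c t l A x hA hx
    simp only [ext'_apply _ hx]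
    simpa using sign_trick T M hM h2 A _ 1 zero_le_one (U_sib m φ c t l A hA) (toW hx)
  · intro I c c' x h hx
    simp only [ext'_apply _ hx]
    simpa using sign_trick T M hM h2 I _ 1 zero_le_one (U_var m φ I c c' h) (toW hx)
  · intro c hc hnd hlen
    obtain ⟨w, hw⟩ := U_one m φ hφ (c W) hnd hlen
    have hmono : ∀ i k, i ≤ k → ∀ t, c i t <:+ c k t := by
      intro i k hik t
      induction k, hik using Nat.le_induction with
      | base => exact List.suffix_refl _
      | succ k _ ih => exact ih.trans (hc k t)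
    set f := ∑ i ∈ range W, U m φ (c (i + 1)) with hf
    have h3 : (W : ℝ) ≤ ‖f‖ := by
      refine le_trans ?_ ((le_abs_self _).trans (ContinuousMap.norm_coe_le_norm f w))
      simp only [hf, ContinuousMap.coe_sum, Finset.sum_apply]
      have := card_nsmul_le_sum (range W) (fun i => U m φ (c (i + 1)) w) 1 fun i hi =>
        hw ▸ U_mono m φ (hmono _ _ (mem_range.1 hi)) w
      simpa using this
    have hW0 : (0 : ℝ) < W := lt_of_le_of_lt (by positivity) hW
    by_contra hcon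
    push Not at hcon
    have h4 : ‖T f‖ ≤ 3 / 4 * W := by
      rw [ContinuousMap.norm_le _ (by positivity)]
      intro x
      have hx := inBB_of_mem x
      refine le_trans ?_ (hcon _ hx).le
      simp only [ext'_apply _ hx, hf, map_sum, ContinuousMap.coe_sum, Finset.sum_apply,
        Real.norm_eq_abs]
      exact abs_sum_le_sum_abs _ _
    linarith [h1 f]

theorem HH_unif (θ : ℕ × ℕ) : ∃ η : ℝ, 0 < η ∧ ∀ y y' : Fin θ.1 → ℝ, (∀ d, |y d - y' d| < η) →
    |HH θ y - HH θ y'| ≤ 1 / 8 := by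
  set F := TopologicalSpace.denseSeq C(Fin θ.1 → Set.Icc (-1 : ℝ) 1, ℝ) θ.2
  obtain ⟨η, hη, h⟩ := Metric.uniformContinuous_iff.1
    (CompactSpace.uniformContinuous_of_continuous F.continuous) (1 / 8) (by norm_num)
  refine ⟨η, hη, fun y y' hy => ?_⟩
  rw [← Real.dist_eq]
  refine (h ((dist_pi_lt_iff hη).2 fun d => ?_)).le
  exact lt_of_le_of_lt (Set.abs_projIcc_sub_projIcc _) (hy d)

theorem exists_seq {α : Type w} {β : Type v} {D : Type} [Fintype D] (Q : α → (D → β) → Prop)
    (σ : Finset D) (e0 : D → β) (h : Fr Q σ e0) :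
    ∃ (i : ℕ → α) (e : ℕ → D → β), Injective i ∧ (∀ k, Q (i k) (e k)) ∧
      (∀ k, ∀ d ∈ σ, e k d = e0 d) ∧ ∀ d, d ∉ σ → Injective fun k => e k d := by
  classical
  choose t ht e he using h
  let s : ℕ → Finset β × Finset α := fun k => Nat.rec (∅, ∅)
    (fun _ w => (w.1 ∪ univ.image (e w.1 w.2), insert (t w.1 w.2) w.2)) k
  have hm : ∀ k l, k ≤ l → (s k).1 ⊆ (s l).1 ∧ (s k).2 ⊆ (s l).2 := by
    intro k l hkl
    induction l, hkl using Nat.le_induction with
    | base => exact ⟨subset_rfl, subset_rfl⟩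
    | succ l _ ih => exact ⟨ih.1.trans subset_union_left, ih.2.trans (subset_insert _ _)⟩
  refine ⟨fun k => t (s k).1 (s k).2, fun k => e (s k).1 (s k).2,
    Function.Injective.of_lt_imp_ne fun k l hkl h => ?_, fun k => (he _ _).1, fun k => (he _ _).2.1,
    fun d hd => Function.Injective.of_lt_imp_ne fun k l hkl h => ?_⟩
  · exact ht (s l).1 (s l).2 (h ▸ (hm (k + 1) l hkl).2 (mem_insert_self _ _))
  · have h' : e (s k).1 (s k).2 d = e (s l).1 (s l).2 d := h
    exact (he (s l).1 (s l).2).2.2 d hd (h' ▸ (hm (k + 1) l hkl).1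
      (mem_union_right _ (mem_image_of_mem _ (mem_univ d))))

theorem no_embedding_inf [Uncountable κ] {ι : Type v} [Infinite ι] {ι' : Type w}
    (hne : ¬ Nonempty (ι' ↪ ι))
    (T : C(ι' → B κ, ℝ) →ₗ[ℝ] C(ι → B κ, ℝ)) (M : ℝ) (hM : 0 ≤ M)
    (h1 : ∀ f, ‖f‖ ≤ ‖T f‖) (h2 : ∀ f, ‖T f‖ ≤ M * ‖f‖) : False := by
  classical
  obtain ⟨a₀⟩ : Nonempty κ := inferInstance
  let r : ι' → C(ι' → B κ, ℝ) := fun i => ⟨fun w => (w i).1 a₀, continuous_coord' i a₀⟩
  have hr : ∀ i w, |r i w| ≤ 1 := fun i w => (mem_B_iff.1 (w i).2).abs_le a₀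
  choose θ e₁ he₁ using fun i => exists_app' (T (r i))
  have hex : ∃ θ₀, ¬ Set.Countable {i | θ i = θ₀} := by
    by_contra hc
    push Not at hc
    choose c hc using fun θ₀ => Set.countable_iff_exists_injOn.1 (hc θ₀)
    have hinj : Injective fun i => (θ i, c (θ i) i) := fun i j hij => by
      have h := Prod.ext_iff.1 hij
      have h' : θ i = θ j := h.1
      exact hc (θ i) rfl h'.symm (h.2.trans (by rw [h']))
    have hl : Injective fun z : (Σ p : ℕ × ℕ, Fin p.1 → ι) × ℕ =>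
        ((z.1.1, z.2), List.ofFn z.1.2) := by
      rintro ⟨⟨p, f⟩, n⟩ ⟨⟨p', f'⟩, n'⟩ h
      simp only [Prod.mk.injEq] at h
      obtain ⟨⟨rfl, rfl⟩, h⟩ := h
      rw [List.ofFn_injective h]
    have hcard : Cardinal.mk (((ℕ × ℕ) × ℕ) × List ι) ≤ Cardinal.mk ι := by
      simp [Cardinal.mk_list_eq_mk]
    obtain ⟨g⟩ := (Cardinal.le_def _ _).1 hcard
    exact hne ⟨⟨_, g.injective.comp (hl.comp hinj)⟩⟩
  obtain ⟨θ₀, hθ₀⟩ := hex
  obtain ⟨σ, e0, hfr⟩ := exists_fr (fun i e => App Prod.fst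
    (fun θ : Σ p : ℕ × ℕ, Fin p.1 → ι => Fin θ.1.1) (fun θ => HH θ.1) (fun θ => θ.2)
    (ext' (T (r i))) θ₀ e) (fun hc => hθ₀ (hc.mono fun i hi => by
      have hi' : θ i = θ₀ := hi
      subst hi'
      exact ⟨e₁ i, he₁ i⟩))
  obtain ⟨i, e, hi, hQ, hσ, hinj⟩ := exists_seq _ σ e0 hfr
  obtain ⟨η, hη, hH⟩ := HH_unif θ₀.1
  obtain ⟨n, hn⟩ := exists_nat_gt (2 * (θ₀.1.1 / η) * (2 * M))
  have hn0 : (0 : ℝ) < n := lt_of_le_of_lt (by positivity) hn
  set f := ∑ k ∈ range n, (r (i (2 * k)) - r (i (2 * k + 1))) with hf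
  have h3 : (n : ℝ) ≤ ‖f‖ := by
    have hb : InB (fun z : κ => if z = a₀ then (1 : ℝ) else 0) := fun F => by
      rw [sum_congr rfl fun z _ => show |if z = a₀ then (1 : ℝ) else 0| =
        if z = a₀ then 1 else 0 by split_ifs <;> simp, sum_ite_eq']
      split_ifs <;> norm_num
    let w : ι' → B κ := fun j => if ∃ k, j = i (2 * k) then ⟨_, mem_B_iff.2 hb⟩ else
      ⟨0, mem_B_iff.2 fun F => by simp⟩
    refine le_trans (le_of_eq ?_) ((le_abs_self _).trans (ContinuousMap.norm_coe_le_norm f w))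
    simp only [hf, ContinuousMap.coe_sum, Finset.sum_apply, ContinuousMap.sub_apply]
    have a1 : ∀ k, r (i (2 * k)) w = 1 := fun k => by
      simp only [r, w, ContinuousMap.coe_mk]
      rw [if_pos ⟨k, rfl⟩]
      simp
    have a2 : ∀ k, r (i (2 * k + 1)) w = 0 := fun k => by
      simp only [r, w, ContinuousMap.coe_mk]
      rw [if_neg (by rintro ⟨l, hl⟩; have := hi hl; omega)]
      rfl
    simp [a1, a2]
  have h4 : ∀ w, |T f w| ≤ n / 2 + 2 * (θ₀.1.1 / η) * (2 * M) / 2 := by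
    intro w
    have hx := inBB_of_mem w
    set x : ι × κ → ℝ := fun z => (w z.1).1 z.2 with hxd
    have hw : ∀ j, T (r j) w = ext' (T (r j)) x := fun j => by rw [ext'_apply _ hx]; rfl
    let y₀ : Fin θ₀.1.1 → ℝ := fun d => if d ∈ σ then x (e0 d) else 0
    let c : ℕ → ℝ := fun k => ∑ d ∈ σᶜ, |x (e k d)|
    have hc0 : ∀ k, 0 ≤ c k := fun k => sum_nonneg fun _ _ => abs_nonneg _
    have hT : ∀ j, |T (r j) w| ≤ M := fun j => by
      simpa using sign_trick T M hM h2 {j} r 1 zero_le_one (fun w => by simpa using hr j w) w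
    have hgood : ∀ k, c k < η → |T (r (i k)) w - HH θ₀.1 y₀| ≤ 1 / 4 := fun k hk => by
      have b1 := (hQ k).2.2 x hx
      have b2 := hH (x ∘ e k) y₀ fun d => by
        by_cases hd : d ∈ σ
        · simp [y₀, hd, hσ k d hd, hη]
        · simp only [y₀, hd, if_false, sub_zero, comp_apply]
          exact lt_of_le_of_lt (single_le_sum (f := fun d => |x (e k d)|)
            (fun _ _ => abs_nonneg _) (by simpa using hd)) hk
      rw [hw]
      have := abs_sub_le (ext' (T (r (i k))) x) (HH θ₀.1 (x ∘ e k)) (HH θ₀.1 y₀)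
      linarith
    have hpair : ∀ k, |T (r (i (2 * k))) w - T (r (i (2 * k + 1))) w| ≤
        1 / 2 + (c (2 * k) + c (2 * k + 1)) / η * (2 * M) := fun k => by
      have b0 : 0 ≤ (c (2 * k) + c (2 * k + 1)) / η * (2 * M) := by
        have := hc0 (2 * k); have := hc0 (2 * k + 1); positivity
      by_cases hk : c (2 * k) < η ∧ c (2 * k + 1) < η
      · have b1 := hgood _ hk.1
        have b2 := hgood _ hk.2
        have := abs_sub_le (T (r (i (2 * k))) w) (HH θ₀.1 y₀) (T (r (i (2 * k + 1))) w)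
        rw [abs_sub_comm (HH θ₀.1 y₀)] at this
        linarith
      · have b1 : 1 ≤ (c (2 * k) + c (2 * k + 1)) / η := by
          rw [one_le_div hη]
          have := hc0 (2 * k); have := hc0 (2 * k + 1)
          rcases not_and_or.1 hk with h | h <;> linarith [not_lt.1 h]
        have b2 := abs_sub (T (r (i (2 * k))) w) (T (r (i (2 * k + 1))) w)
        nlinarith [hT (i (2 * k)), hT (i (2 * k + 1))]
    have hsum : ∀ I : Finset ℕ, ∑ k ∈ I, c k ≤ θ₀.1.1 := fun I => by
      simp only [c]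
      rw [sum_comm]
      refine (sum_le_card_nsmul _ _ 1 fun d hd => ?_).trans (by
        simpa using card_le_univ (σᶜ))
      have := hx (θ₀.2 d) (I.image fun k => e k d)
      rw [mass, sum_image fun a _ b _ h => hinj d (by simpa using hd) h] at this
      refine le_trans (le_of_eq (sum_congr rfl fun k _ => ?_)) this
      rw [if_pos ((hQ k).2.1 d)]
    have hs2 : ∑ k ∈ range n, (c (2 * k) + c (2 * k + 1)) ≤ θ₀.1.1 := by
      have : ∀ n, ∑ k ∈ range n, (c (2 * k) + c (2 * k + 1)) = ∑ k ∈ range (2 * n), c k := by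
        intro n
        induction n with
        | zero => simp
        | succ n ih => rw [sum_range_succ, ih, mul_add, mul_one, sum_range_succ, sum_range_succ,
            add_assoc]
      rw [this]
      exact hsum _
    simp only [hf, map_sum, map_sub, ContinuousMap.coe_sum, Finset.sum_apply,
      ContinuousMap.sub_apply]
    refine (abs_sum_le_sum_abs _ _).trans ((sum_le_sum fun k _ => hpair k).trans ?_)
    have : (∑ k ∈ range n, (c (2 * k) + c (2 * k + 1))) / η * (2 * M) ≤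
        θ₀.1.1 / η * (2 * M) := by gcongr
    rw [sum_div, sum_mul] at this
    rw [sum_add_distrib, sum_const, card_range, nsmul_eq_mul]
    linarith
  have h5 : ‖T f‖ ≤ n / 2 + 2 * (θ₀.1.1 / η) * (2 * M) / 2 :=
    (ContinuousMap.norm_le _ (by positivity)).2 h4
  linarith [h1 f]

theorem embeds_iff [Uncountable κ] (ι : Type v) (ι' : Type w) :
    (∃ T : C(ι' → B κ, ℝ) →L[ℝ] C(ι → B κ, ℝ), Topology.IsEmbedding T) ↔ Nonempty (ι' ↪ ι) := by
  classical
  constructor
  · rintro ⟨T, hT⟩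
    by_contra hne
    obtain ⟨K, hK⟩ := T.antilipschitz_of_isEmbedding hT
    have h1 : ∀ f, ‖f‖ ≤ ‖((K : ℝ) • (T : C(ι' → B κ, ℝ) →ₗ[ℝ] C(ι → B κ, ℝ))) f‖ := fun f => by
      have := hK.le_mul_dist f 0
      simpa [norm_smul] using this
    have h2 : ∀ f, ‖((K : ℝ) • (T : C(ι' → B κ, ℝ) →ₗ[ℝ] C(ι → B κ, ℝ))) f‖ ≤
        K * ‖T‖ * ‖f‖ := fun f => by
      simp only [LinearMap.smul_apply, ContinuousLinearMap.coe_coe, norm_smul, Real.norm_eq_abs,
        NNReal.abs_eq, mul_assoc]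
      gcongr
      exact T.le_opNorm f
    rcases finite_or_infinite ι with hfin | hinf
    · have := Fintype.ofFinite ι
      have hφ : Nonempty (Option ι ↪ ι') := by
        rcases finite_or_infinite ι' with h | h
        · have := Fintype.ofFinite ι'
          rw [Embedding.nonempty_iff_card_le] at hne ⊢
          rw [Fintype.card_option]
          omega
        · obtain ⟨f, hf⟩ := Countable.exists_injective_nat (Option ι)
          exact ⟨(⟨f, hf⟩ : Option ι ↪ ℕ).trans (Infinite.natEmbedding ι')⟩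
      obtain ⟨φ⟩ := hφ
      exact no_embedding' φ φ.injective _ _ (by positivity) h1 h2
    · exact no_embedding_inf hne _ _ (by positivity) h1 h2
  · rintro ⟨φ⟩
    let p : C(ι → B κ, ι' → B κ) := ⟨fun w j => w (φ j), by fun_prop⟩
    have hp : Surjective p := fun w => by
      refine ⟨Function.extend φ w (fun _ => ⟨0, mem_B_iff.2 fun F => by simp⟩), funext fun j => ?_⟩
      simp only [p, ContinuousMap.coe_mk]
      exact φ.injective.extend_apply _ _ j
    let L : C(ι' → B κ, ℝ) →ₗ[ℝ] C(ι → B κ, ℝ) :=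
      { toFun := fun f => f.comp p, map_add' := fun _ _ => rfl, map_smul' := fun _ _ => rfl }
    have hL : ∀ f, ‖L f‖ = ‖f‖ := fun f => by
      refine le_antisymm ((ContinuousMap.norm_le _ (norm_nonneg _)).2 fun w =>
        f.norm_coe_le_norm (p w)) ((ContinuousMap.norm_le _ (norm_nonneg _)).2 fun w => ?_)
      obtain ⟨w', rfl⟩ := hp w
      exact (L f).norm_coe_le_norm w'
    let I : C(ι' → B κ, ℝ) →ₗᵢ[ℝ] C(ι → B κ, ℝ) := ⟨L, hL⟩
    exact ⟨I.toContinuousLinearMap, I.isometry.isEmbedding⟩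

end Pool.Agent.P.MP_b4ec01_an.Pw
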